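import Pool.Agent.Q296.Race3.Xyx

/-!
# The race between two words of the form `xyx`
-/

set_option autoImplicit false

namespace Pool.Agent.Q296.Race3

open MeasureTheory Set
open scoped ENNReal

/-- Numerator of `P(A > B) - 1/2` (up to a factor `2`). -/
noncomputable def num (a b p q : ℝ) : ℝ :=
  -p + a - b*p + a*q + 2*b*p*q - 2*a*p*q - 2*a*b*q + 2*a*b*p + 2*b^2*p*q - 2*b^2*p^2
  - 2*a*b*q^2 + 3*a*b*p^2 + 2*a^2*q^2 - 3*a^2*p*q - b^2*p*q^2 + 2*a*b*p*q^2 + a*b^2*q^2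
  - 2*a*b^2*p*q + a*b^2*p^2 - a^2*p*q^2 - b^3*p*q^2 + 2*b^3*p^2*q - b^3*p^3 + a*b^2*q^3
  - 3*a*b^2*p^2*q + 2*a*b^2*p^3 - 2*a^2*b*q^3 + 3*a^2*b*p*q^2 - a^2*b*p^3 + a^3*q^3
  - 2*a^3*p*q^2 + a^3*p^2*q

/-- Denominator. -/
noncomputable def den (a b p q : ℝ) : ℝ :=
  p + a + b*p + a*q - 5*a*p - 2*b*p*q + 2*a*p*q - 2*a*b*q + 2*a*b*p - 2*b^2*p*q + 2*b^2*p^2
  - 2*a*b*q^2 + 10*a*b*p*q - 7*a*b*p^2 + 2*a^2*q^2 - 7*a^2*p*q + 5*a^2*p^2 + b^2*p*q^2
  - 2*a*b*p*q^2 + a*b^2*q^2 - 2*a*b^2*p*q + a*b^2*p^2 + a^2*p*q^2 + b^3*p*q^2 - 2*b^3*p^2*q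
  + b^3*p^3 + a*b^2*q^3 - 5*a*b^2*p*q^2 + 7*a*b^2*p^2*q - 3*a*b^2*p^3 - 2*a^2*b*q^3
  + 7*a^2*b*p*q^2 - 8*a^2*b*p^2*q + 3*a^2*b*p^3 + a^3*q^3 - 3*a^3*p*q^2 + 3*a^3*p^2*q - a^3*p^3

/-- The assumptions on the tails. -/
structure Tail (a b : ℝ) (u : ℕ → ℝ) : Prop where
  nonneg : ∀ n, 0 ≤ u n
  le_one : ∀ n, u n ≤ 1
  zero : u 0 = 1
  one : u 1 = 1
  two : u 2 = 1
  recur : ∀ n, u (n + 3) = u (n + 2) - b * u (n + 1) - (a - b) * u n
  ha : 0 < a
  hb : 0 ≤ b

namespace Tail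

variable {a b p q : ℝ} {u v : ℕ → ℝ}

lemma sum_eq (h : Tail a b u) (N : ℕ) :
    a * ∑ n ∈ Finset.range N, u n = u 2 - u (N + 2) + b * (u 0 - u N) := by
  induction N with
  | zero => simp
  | succ N ih =>
    rw [Finset.sum_range_succ, mul_add, ih]
    have := h.recur N
    have e : N + 1 + 2 = N + 3 := by ring
    rw [e, this]
    ring

lemma summable (h : Tail a b u) : Summable u := by
  refine summable_of_sum_range_le (c := (1 + b) / a) h.nonneg fun N => ?_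
  rw [le_div_iff₀ h.ha, mul_comm, h.sum_eq N, h.two, h.zero]
  have h1 := h.nonneg (N + 2)
  have h2 := mul_nonneg h.hb (h.nonneg N)
  linarith

lemma tendsto (h : Tail a b u) : Filter.Tendsto u Filter.atTop (nhds 0) :=
  h.summable.tendsto_atTop_zero

lemma summ (h : Tail a b u) (h' : Tail p q v) (i j : ℕ) :
    Summable fun n => u (n + i) * v (n + j) := by
  refine Summable.of_nonneg_of_le (fun n => mul_nonneg (h.nonneg _) (h'.nonneg _))
    (fun n => ?_) ((summable_nat_add_iff i).2 h.summable)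
  calc u (n + i) * v (n + j) ≤ u (n + i) * 1 :=
        mul_le_mul_of_nonneg_left (h'.le_one _) (h.nonneg _)
    _ = u (n + i) := mul_one _

/-- The mixed sums. -/
noncomputable def sm (u v : ℕ → ℝ) (i j : ℕ) : ℝ := ∑' n, u (n + i) * v (n + j)

lemma sm_shift (h : Tail a b u) (h' : Tail p q v) (i j : ℕ) :
    sm u v (i + 1) (j + 1) = sm u v i j - u i * v j := by
  have h1 := (h.summ h' i j).tsum_eq_zero_add
  unfold sm
  rw [h1]
  have : ∀ n, u (n + 1 + i) * v (n + 1 + j) = u (n + (i + 1)) * v (n + (j + 1)) := by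
    intro n
    have e1 : n + 1 + i = n + (i + 1) := by omega
    have e2 : n + 1 + j = n + (j + 1) := by omega
    rw [e1, e2]
  simp only [this, Nat.zero_add]
  ring

lemma sm_recl (h : Tail a b u) (h' : Tail p q v) (j : ℕ) :
    sm u v 3 j = sm u v 2 j - b * sm u v 1 j - (a - b) * sm u v 0 j := by
  unfold sm
  rw [← tsum_mul_left, ← tsum_mul_left, ← ((h.summ h' 2 j)).tsum_sub ((h.summ h' 1 j).mul_left b),
    ← ((h.summ h' 2 j).sub ((h.summ h' 1 j).mul_left b)).tsum_sub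
      ((h.summ h' 0 j).mul_left (a - b))]
  refine tsum_congr fun n => ?_
  rw [h.recur n, Nat.add_zero]
  ring_nf

lemma sm_recr (h : Tail a b u) (h' : Tail p q v) (i : ℕ) :
    sm u v i 3 = sm u v i 2 - q * sm u v i 1 - (p - q) * sm u v i 0 := by
  unfold sm
  rw [← tsum_mul_left, ← tsum_mul_left, ← ((h.summ h' i 2)).tsum_sub ((h.summ h' i 1).mul_left q),
    ← ((h.summ h' i 2).sub ((h.summ h' i 1).mul_left q)).tsum_sub
      ((h.summ h' i 0).mul_left (p - q))]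
  refine tsum_congr fun n => ?_
  rw [h'.recur n, Nat.add_zero]
  ring_nf

/-- The key identity. -/
lemma den_mul (h : Tail a b u) (h' : Tail p q v) :
    den a b p q * (sm u v 0 1 - sm u v 1 0) = num a b p q := by
  have e11 := sm_shift h h' 0 0
  have e21 := sm_shift h h' 1 0
  have e12 := sm_shift h h' 0 1
  have e22 := sm_shift h h' 1 1
  have e13 := sm_shift h h' 0 2
  have e23 := sm_shift h h' 1 2
  have e31 := sm_shift h h' 2 0
  have e32 := sm_shift h h' 2 1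
  have e33 := sm_shift h h' 2 2
  have r31 := sm_recl h h' 1
  have r32 := sm_recl h h' 2
  have r33 := sm_recl h h' 3
  have r13 := sm_recr h h' 1
  have r23 := sm_recr h h' 2
  have r03 := sm_recr h h' 0
  simp only [Nat.reduceAdd] at e11 e21 e12 e22 e13 e23 e31 e32 e33
  rw [h.zero, h'.zero] at e11
  rw [h.one, h'.zero] at e21
  rw [h.zero, h'.one] at e12
  rw [h.one, h'.one] at e22
  rw [h.zero, h'.two] at e13
  rw [h.one, h'.two] at e23
  rw [h.two, h'.zero] at e31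
  rw [h.two, h'.one] at e32
  rw [h.two, h'.two] at e33
  generalize sm u v 0 0 = S at *
  generalize sm u v 1 0 = P at *
  generalize sm u v 0 1 = Q at *
  generalize sm u v 2 0 = R at *
  generalize sm u v 0 2 = T at *
  generalize sm u v 1 1 = x11 at *
  generalize sm u v 2 1 = x21 at *
  generalize sm u v 1 2 = x12 at *
  generalize sm u v 2 2 = x22 at *
  generalize sm u v 1 3 = x13 at *
  generalize sm u v 2 3 = x23 at *
  generalize sm u v 3 1 = x31 at *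
  generalize sm u v 3 2 = x32 at *
  generalize sm u v 3 3 = x33 at *
  generalize sm u v 0 3 = x03 at *
  subst x11
  subst x21
  subst x12
  subst x22
  subst x31
  subst x32
  subst x33
  subst x13
  subst x23
  have E0 : (-1 - (a-b)*q) * S + (1 - (a-b)*(p-q)) * P + a * Q = b - (a-b)*q := by
    linear_combination r32 - (a-b) * r13
  have E1 : (-1 - (p-q)*b) * S + p * P + (1 - (a-b)*(p-q)) * Q = q - (p-q)*b := by
    linear_combination r23 - (p-q) * r31
  have E2 : (1 - a*q - (a-b)*(p-q)) * S + (-a*(p-q)) * P + (-1 + a - (a-b)*q) * Q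
      = 1 - a*q + b := by
    linear_combination -e33 - (a-b) * r03 - a * r13
  unfold den num
  linear_combination
    (((-1 - (p-q)*b) * (-a*(p-q)) - p * (1 - a*q - (a-b)*(p-q)))
      + ((-1 - (p-q)*b) * (-1 + a - (a-b)*q) - (1 - (a-b)*(p-q)) * (1 - a*q - (a-b)*(p-q)))) * E0
    + (-((-1 - (a-b)*q) * (-a*(p-q)) - (1 - (a-b)*(p-q)) * (1 - a*q - (a-b)*(p-q)))
      - ((-1 - (a-b)*q) * (-1 + a - (a-b)*q) - a * (1 - a*q - (a-b)*(p-q)))) * E1
    + (((-1 - (a-b)*q) * p - (1 - (a-b)*(p-q)) * (-1 - (p-q)*b))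
      + ((-1 - (a-b)*q) * (1 - (a-b)*(p-q)) - a * (-1 - (p-q)*b))) * E2

end Tail

end Pool.Agent.Q296.Race3
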