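import Pool.Agent.Q296.Seq.Defs

/-!
# Pattern races over a finite alphabet
-/

set_option autoImplicit false

namespace Pool.Agent.Q296.Race3

open MeasureTheory
open scoped ENNReal

/-- The word `w` ends at index `n` of the sequence `X_1, X_2, …`, that is
`X_{n-L+1} ⋯ X_n = w`, where `L` is the length of `w` and `X_k = x (k - 1)`. -/
def occ {E : Type*} (w : List E) (x : ℕ → E) (n : ℕ) : Prop :=
  w.length ≤ n ∧ ∀ i : Fin w.length, x (n - w.length + i) = w.get i

/-- The first index at which the word `w` ends (`∞` if there is none). -/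
noncomputable def tau {E : Type*} (w : List E) (x : ℕ → E) : ℕ∞ :=
  ⨅ (n : ℕ) (_ : occ w x n), (n : ℕ∞)

/-- The law of a letter, which is `i` with probability `p i`. -/
noncomputable def letter {s : ℕ} (p : Fin s → ℝ) : Measure (Fin s) :=
  ∑ i, ENNReal.ofReal (p i) • Measure.dirac i

/-- The law of two independent i.i.d. sequences of letters. -/
noncomputable def two {s : ℕ} (p : Fin s → ℝ) : Measure ((ℕ → Fin s) × (ℕ → Fin s)) :=
  (Q296.Seq.iid (letter p)).prod (Q296.Seq.iid (letter p))

/-- `P(A > B) = P(τ_A < τ_B) + P(τ_A = τ_B) / 2` for two independent copies of the source. -/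
noncomputable def W {s : ℕ} (p : Fin s → ℝ) (A B : List (Fin s)) : ℝ :=
  (two p {ω | tau A ω.1 < tau B ω.2}).toReal +
    1 / 2 * (two p {ω | tau A ω.1 = tau B ω.2}).toReal

end Pool.Agent.Q296.Race3
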