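import Pool.Agent.Q296.Race3.Path

/-!
# Three-cycles arbitrarily close to the uniform distribution
-/

set_option autoImplicit false

namespace Pool.Agent.Q296.Race3

open MeasureTheory Set Filter Topology
open scoped ENNReal

lemma letter_singleton {s : ℕ} (p : Fin s → ℝ) (i : Fin s) :
    letter p {i} = ENNReal.ofReal (p i) := by
  unfold letter
  rw [Measure.finsetSum_apply]
  simp only [Measure.smul_apply, Measure.dirac_apply' _ (measurableSet_singleton _), smul_eq_mul]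
  rw [Finset.sum_eq_single i]
  · simp
  · intro j _ hj
    simp [hj]
  · simp

lemma isProb_letter {s : ℕ} (p : Fin s → ℝ) (h0 : ∀ i, 0 ≤ p i) (h1 : ∑ i, p i = 1) :
    IsProbabilityMeasure (letter p) := by
  refine ⟨?_⟩
  unfold letter
  rw [Measure.finsetSum_apply]
  simp only [Measure.smul_apply, measure_univ, smul_eq_mul, mul_one]
  rw [← ENNReal.ofReal_sum_of_nonneg (fun i _ => h0 i), h1, ENNReal.ofReal_one]

lemma tail_word {s : ℕ} (p : Fin s → ℝ) (h0 : ∀ i, 0 < p i) (h1 : ∑ i, p i = 1) (x y : Fin s)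
    (hxy : x ≠ y) : Tail (p x ^ 2 * p y) (p x * p y) (u (letter p) [x, y, x]) := by
  have := isProb_letter p (fun i => (h0 i).le) h1
  refine ⟨u_nonneg _ _, ?_, u_zero _ _ (by simp), u_lt_length _ _ 1 (by simp),
    u_lt_length _ _ 2 (by simp), ?_, by have := h0 x; have := h0 y; positivity,
    by have := h0 x; have := h0 y; positivity⟩
  · intro n
    unfold u
    have := prob_le_one (μ := Q296.Seq.iid (letter p)) (s := A [x, y, x] n)
    exact ENNReal.toReal_le_of_le_ofReal zero_le_one (by simpa using this)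
  · intro n
    have h := u_rec3 (letter p) x y hxy n
    rw [letter_singleton, letter_singleton, ENNReal.toReal_ofReal (h0 x).le,
      ENNReal.toReal_ofReal (h0 y).le] at h
    exact h

lemma W_eq {s : ℕ} (p : Fin s → ℝ) (h0 : ∀ i, 0 < p i) (h1 : ∑ i, p i = 1) (x y x' y' : Fin s)
    (hxy : x ≠ y) (hxy' : x' ≠ y') :
    W p [x, y, x] [x', y', x'] = 1 / 2 +
      (Tail.sm (u (letter p) [x, y, x]) (u (letter p) [x', y', x']) 0 1 -
        Tail.sm (u (letter p) [x, y, x]) (u (letter p) [x', y', x']) 1 0) / 2 := by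
  have hpm := isProb_letter p (fun i => (h0 i).le) h1
  have t := tail_word p h0 h1 x y hxy
  have t' := tail_word p h0 h1 x' y' hxy'
  have e1 := (hasSum_lt (letter p) [x, y, x] [x', y', x'] (by simp)).tsum_eq
  have e2 := (hasSum_eq (letter p) [x, y, x] [x', y', x'] (by simp) t.tendsto).tsum_eq
  unfold W two
  rw [← e1, ← e2]
  set U := u (letter p) [x, y, x] with hU
  set V := u (letter p) [x', y', x'] with hV
  have s1 : ∑' n, (U n - U (n + 1)) * V (n + 1) = Tail.sm U V 0 1 - Tail.sm U V 1 1 := by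
    unfold Tail.sm
    rw [← (t.summ t' 0 1).tsum_sub (t.summ t' 1 1)]
    refine tsum_congr fun n => ?_
    simp only [Nat.add_zero]
    ring
  have s2 : ∑' n, (U n - U (n + 1)) * (V n - V (n + 1)) =
      Tail.sm U V 0 0 - Tail.sm U V 0 1 - Tail.sm U V 1 0 + Tail.sm U V 1 1 := by
    unfold Tail.sm
    rw [← (t.summ t' 0 0).tsum_sub (t.summ t' 0 1),
      ← ((t.summ t' 0 0).sub (t.summ t' 0 1)).tsum_sub (t.summ t' 1 0),
      ← (((t.summ t' 0 0).sub (t.summ t' 0 1)).sub (t.summ t' 1 0)).tsum_add (t.summ t' 1 1)]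
    refine tsum_congr fun n => ?_
    simp only [Nat.add_zero]
    ring
  have s3 := Tail.sm_shift t t' 0 0
  rw [t.zero, t'.zero] at s3
  simp only [Nat.reduceAdd] at s3
  rw [s1, s2]
  linear_combination (-1 / 2) * s3

lemma W_gt {s : ℕ} (p : Fin s → ℝ) (h0 : ∀ i, 0 < p i) (h1 : ∑ i, p i = 1) (x y x' y' : Fin s)
    (hxy : x ≠ y) (hxy' : x' ≠ y')
    (hd : 0 < den (p x ^ 2 * p y) (p x * p y) (p x' ^ 2 * p y') (p x' * p y'))
    (hn : 0 < num (p x ^ 2 * p y) (p x * p y) (p x' ^ 2 * p y') (p x' * p y')) :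
    1 / 2 < W p [x, y, x] [x', y', x'] := by
  have t := tail_word p h0 h1 x y hxy
  have t' := tail_word p h0 h1 x' y' hxy'
  rw [W_eq p h0 h1 x y x' y' hxy hxy']
  have h := Tail.den_mul t t'
  have : 0 < Tail.sm (u (letter p) [x, y, x]) (u (letter p) [x', y', x']) 0 1 -
      Tail.sm (u (letter p) [x, y, x]) (u (letter p) [x', y', x']) 1 0 := by
    by_contra hcon
    push Not at hcon
    have := mul_nonpos_of_nonneg_of_nonpos hd.le hcon
    linarith
  linarith

/-- The distribution on seven letters. -/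
noncomputable def law (x : ℝ) : Fin 7 → ℝ :=
  ![aa0 x / bb0 x, bb0 x ^ 2 / aa0 x, aa1 x / bb1 x, bb1 x ^ 2 / aa1 x, aa2 x / bb2 x,
    bb2 x ^ 2 / aa2 x, 1 - (aa0 x / bb0 x + bb0 x ^ 2 / aa0 x + aa1 x / bb1 x + bb1 x ^ 2 / aa1 x +
      aa2 x / bb2 x + bb2 x ^ 2 / aa2 x)]

lemma law_sum (x : ℝ) : ∑ i, law x i = 1 := by
  simp [law, Fin.sum_univ_succ]
  ring

lemma cont_aa0 : Continuous aa0 := by unfold aa0; fun_prop
lemma cont_aa1 : Continuous aa1 := by unfold aa1; fun_prop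
lemma cont_aa2 : Continuous aa2 := by unfold aa2; fun_prop
lemma cont_bb0 : Continuous bb0 := by unfold bb0; fun_prop
lemma cont_bb1 : Continuous bb1 := by unfold bb1; fun_prop
lemma cont_bb2 : Continuous bb2 := by unfold bb2; fun_prop
lemma cont_qq10 : Continuous qq10 := by unfold qq10; fun_prop
lemma cont_qq21 : Continuous qq21 := by unfold qq21; fun_prop
lemma cont_qq02 : Continuous qq02 := by unfold qq02; fun_prop

lemma aa0_zero : aa0 0 = 1 / 343 := by unfold aa0; norm_num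
lemma aa1_zero : aa1 0 = 1 / 343 := by unfold aa1; norm_num
lemma aa2_zero : aa2 0 = 1 / 343 := by unfold aa2; norm_num
lemma bb0_zero : bb0 0 = 1 / 49 := by unfold bb0; norm_num
lemma bb1_zero : bb1 0 = 1 / 49 := by unfold bb1; norm_num
lemma bb2_zero : bb2 0 = 1 / 49 := by unfold bb2; norm_num
lemma qq10_zero : 0 < qq10 0 := by unfold qq10; norm_num
lemma qq21_zero : 0 < qq21 0 := by unfold qq21; norm_num
lemma qq02_zero : 0 < qq02 0 := by unfold qq02; norm_num

lemma tend {f : ℝ → ℝ} (hf : ContinuousAt f 0) {c : ℝ} (hc : f 0 = c) :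
    Tendsto f (𝓝[>] 0) (𝓝 c) := by
  rw [← hc]
  exact hf.tendsto.mono_left nhdsWithin_le_nhds

lemma law_tendsto (i : Fin 7) : Tendsto (fun x => law x i) (𝓝[>] 0) (𝓝 (1 / 7)) := by
  have hx : ∀ {f g : ℝ → ℝ}, Continuous f → Continuous g → g 0 ≠ 0 →
      ContinuousAt (fun x => f x / g x) 0 := fun hf hg h => hf.continuousAt.div hg.continuousAt h
  have hy : ∀ {f g : ℝ → ℝ}, Continuous f → Continuous g → f 0 ≠ 0 →
      ContinuousAt (fun x => g x ^ 2 / f x) 0 := fun hf hg h =>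
        (hg.pow 2).continuousAt.div hf.continuousAt h
  have a0 : aa0 0 ≠ 0 := by rw [aa0_zero]; norm_num
  have a1 : aa1 0 ≠ 0 := by rw [aa1_zero]; norm_num
  have a2 : aa2 0 ≠ 0 := by rw [aa2_zero]; norm_num
  have b0 : bb0 0 ≠ 0 := by rw [bb0_zero]; norm_num
  have b1 : bb1 0 ≠ 0 := by rw [bb1_zero]; norm_num
  have b2 : bb2 0 ≠ 0 := by rw [bb2_zero]; norm_num
  have c0 := hx cont_aa0 cont_bb0 b0
  have c1 := hy cont_aa0 cont_bb0 a0
  have c2 := hx cont_aa1 cont_bb1 b1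
  have c3 := hy cont_aa1 cont_bb1 a1
  have c4 := hx cont_aa2 cont_bb2 b2
  have c5 := hy cont_aa2 cont_bb2 a2
  fin_cases i
  · exact tend c0 (by simp only [aa0_zero, bb0_zero]; norm_num)
  · exact tend c1 (by simp only [aa0_zero, bb0_zero]; norm_num)
  · exact tend c2 (by simp only [aa1_zero, bb1_zero]; norm_num)
  · exact tend c3 (by simp only [aa1_zero, bb1_zero]; norm_num)
  · exact tend c4 (by simp only [aa2_zero, bb2_zero]; norm_num)
  · exact tend c5 (by simp only [aa2_zero, bb2_zero]; norm_num)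
  · refine tend (f := fun x => 1 - (aa0 x / bb0 x + bb0 x ^ 2 / aa0 x + aa1 x / bb1 x +
      bb1 x ^ 2 / aa1 x + aa2 x / bb2 x + bb2 x ^ 2 / aa2 x))
      (continuousAt_const.sub (((((c0.add c1).add c2).add c3).add c4).add c5)) ?_
    simp only [aa0_zero, bb0_zero, aa1_zero, bb1_zero, aa2_zero, bb2_zero]
    norm_num

lemma pos_of_tendsto {f : ℝ → ℝ} {c : ℝ} (hc : 0 < c) (h : Tendsto f (𝓝[>] 0) (𝓝 c)) :
    ∀ᶠ x in 𝓝[>] (0 : ℝ), 0 < f x := h.eventually (lt_mem_nhds hc)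

lemma den_ev {a b p q : ℝ → ℝ} (ha : Continuous a) (hb : Continuous b) (hp : Continuous p)
    (hq : Continuous q) (a0 : a 0 = 1 / 343) (b0 : b 0 = 1 / 49) (p0 : p 0 = 1 / 343)
    (q0 : q 0 = 1 / 49) : ∀ᶠ x in 𝓝[>] (0 : ℝ), 0 < den (a x) (b x) (p x) (q x) := by
  have hc : Continuous fun x => den (a x) (b x) (p x) (q x) := by
    unfold den
    fun_prop
  refine pos_of_tendsto (c := den (1 / 343) (1 / 49) (1 / 343) (1 / 49)) ?_
    (tend hc.continuousAt (by rw [a0, b0, p0, q0]))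
  unfold den
  norm_num

theorem cycle_near_uniform (ε : ℝ) (hε : 0 < ε) :
    ∃ p : Fin 7 → ℝ, (∀ i, 0 < p i) ∧ ∑ i, p i = 1 ∧ (∀ i, |p i - 1 / 7| < ε) ∧
      1 / 2 < W p [4, 5, 4] [2, 3, 2] ∧ 1 / 2 < W p [2, 3, 2] [0, 1, 0] ∧
        1 / 2 < W p [0, 1, 0] [4, 5, 4] := by
  have hpos : ∀ᶠ x in 𝓝[>] (0 : ℝ), ∀ i, 0 < law x i := by
    rw [Filter.eventually_all]
    intro i
    exact pos_of_tendsto (by norm_num) (law_tendsto i)
  have hnear : ∀ᶠ x in 𝓝[>] (0 : ℝ), ∀ i, |law x i - 1 / 7| < ε := by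
    rw [Filter.eventually_all]
    intro i
    have := (Metric.tendsto_nhds.1 (law_tendsto i)) ε hε
    simpa [Real.dist_eq] using this
  have hx : ∀ᶠ x in 𝓝[>] (0 : ℝ), 0 < x := self_mem_nhdsWithin
  have ha0 := pos_of_tendsto (by norm_num) (tend cont_aa0.continuousAt aa0_zero)
  have ha1 := pos_of_tendsto (by norm_num) (tend cont_aa1.continuousAt aa1_zero)
  have ha2 := pos_of_tendsto (by norm_num) (tend cont_aa2.continuousAt aa2_zero)
  have hb0 := pos_of_tendsto (by norm_num) (tend cont_bb0.continuousAt bb0_zero)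
  have hb1 := pos_of_tendsto (by norm_num) (tend cont_bb1.continuousAt bb1_zero)
  have hb2 := pos_of_tendsto (by norm_num) (tend cont_bb2.continuousAt bb2_zero)
  have hq10 := pos_of_tendsto qq10_zero (tend cont_qq10.continuousAt rfl)
  have hq21 := pos_of_tendsto qq21_zero (tend cont_qq21.continuousAt rfl)
  have hq02 := pos_of_tendsto qq02_zero (tend cont_qq02.continuousAt rfl)
  have hd10 := den_ev cont_aa1 cont_bb1 cont_aa0 cont_bb0 aa1_zero bb1_zero aa0_zero bb0_zero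
  have hd21 := den_ev cont_aa2 cont_bb2 cont_aa1 cont_bb1 aa2_zero bb2_zero aa1_zero bb1_zero
  have hd02 := den_ev cont_aa0 cont_bb0 cont_aa2 cont_bb2 aa0_zero bb0_zero aa2_zero bb2_zero
  obtain ⟨x, h⟩ := (hpos.and (hnear.and (hx.and (ha0.and (ha1.and (ha2.and (hb0.and (hb1.and
    (hb2.and (hq10.and (hq21.and (hq02.and (hd10.and (hd21.and hd02)))))))))))))).exists
  obtain ⟨hpos, hnear, hx, ha0, ha1, ha2, hb0, hb1, hb2, hq10, hq21, hq02, hd10, hd21, hd02⟩ := h
  have k0 : law x 0 = aa0 x / bb0 x := rfl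
  have k1 : law x 1 = bb0 x ^ 2 / aa0 x := rfl
  have k2 : law x 2 = aa1 x / bb1 x := rfl
  have k3 : law x 3 = bb1 x ^ 2 / aa1 x := rfl
  have k4 : law x 4 = aa2 x / bb2 x := rfl
  have k5 : law x 5 = bb2 x ^ 2 / aa2 x := rfl
  have ea0 : law x 0 ^ 2 * law x 1 = aa0 x := by rw [k0, k1]; field_simp
  have eb0 : law x 0 * law x 1 = bb0 x := by rw [k0, k1]; field_simp
  have ea1 : law x 2 ^ 2 * law x 3 = aa1 x := by rw [k2, k3]; field_simp
  have eb1 : law x 2 * law x 3 = bb1 x := by rw [k2, k3]; field_simp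
  have ea2 : law x 4 ^ 2 * law x 5 = aa2 x := by rw [k4, k5]; field_simp
  have eb2 : law x 4 * law x 5 = bb2 x := by rw [k4, k5]; field_simp
  refine ⟨law x, hpos, law_sum x, hnear, ?_, ?_, ?_⟩
  · refine W_gt _ hpos (law_sum x) 4 5 2 3 (by decide) (by decide) ?_ ?_
    · rw [ea1, eb1, ea2, eb2]; exact hd21
    · rw [ea1, eb1, ea2, eb2, num_21]; positivity
  · refine W_gt _ hpos (law_sum x) 2 3 0 1 (by decide) (by decide) ?_ ?_
    · rw [ea1, eb1, ea0, eb0]; exact hd10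
    · rw [ea1, eb1, ea0, eb0, num_10]; positivity
  · refine W_gt _ hpos (law_sum x) 0 1 4 5 (by decide) (by decide) ?_ ?_
    · rw [ea0, eb0, ea2, eb2]; exact hd02
    · rw [ea0, eb0, ea2, eb2, num_02]; positivity

end Pool.Agent.Q296.Race3
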