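import Pool.Agent.Q296.Race3.Main

/-!
# The words `xyx`
-/

set_option autoImplicit false
set_option linter.unusedSectionVars false

namespace Pool.Agent.Q296.Race3

open MeasureTheory Set
open scoped ENNReal

variable {E : Type*} [MeasurableSpace E] [MeasurableSingletonClass E]

lemma occ3 (x y z : E) (ω : ℕ → E) (n : ℕ) :
    occ [x, y, z] ω (n + 3) ↔ ω n = x ∧ ω (n + 1) = y ∧ ω (n + 2) = z := by
  unfold occ
  constructor
  · rintro ⟨_, h⟩
    exact ⟨h ⟨0, by simp⟩, h ⟨1, by simp⟩, h ⟨2, by simp⟩⟩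
  · rintro ⟨h1, h2, h3⟩
    refine ⟨by simp, ?_⟩
    intro i
    have hi : (i : ℕ) < 3 := i.isLt
    obtain ⟨i, hi'⟩ := i
    simp only at hi
    interval_cases i
    · exact h1
    · exact h2
    · exact h3

lemma occ3_lt (x y z : E) (ω : ℕ → E) (n : ℕ) (hn : n < 3) : ¬ occ [x, y, z] ω n := by
  intro h
  have h1 := h.1
  simp only [List.length_cons, List.length_nil] at h1
  omega

lemma key3 (x y : E) (hxy : x ≠ y) (n : ℕ) :
    A [x, y, x] n ∩ {ω | (fun i => ω (n + i)) ∈ {ω : ℕ → E | occ [x, y, x] ω 3}} =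
      (A [x, y, x] (n + 2) \ A [x, y, x] (n + 3)) ∪
        ((A [x, y, x] n \ A [x, y, x] (n + 1)) ∩
          {ω | (fun i => ω (n + 1 + i)) ∈ {ω : ℕ → E | ω 0 = y ∧ ω 1 = x}}) := by
  ext ω
  have h0 : (fun i => ω (n + i)) ∈ {ω : ℕ → E | occ [x, y, x] ω 3} ↔
      ω n = x ∧ ω (n + 1) = y ∧ ω (n + 2) = x := by
    have := occ3 x y x (fun i => ω (n + i)) 0
    simpa using this
  have h0' : (fun i => ω (n + 1 + i)) ∈ {ω : ℕ → E | ω 0 = y ∧ ω 1 = x} ↔
      ω (n + 1) = y ∧ ω (n + 2) = x := by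
    simp only [mem_ofPred_eq, Nat.add_zero]
  have hA : ∀ m, ω ∈ A [x, y, x] (m + 1) ↔ ω ∈ A [x, y, x] m ∧ ¬ occ [x, y, x] ω (m + 1) := by
    intro m
    simp only [A, mem_ofPred_eq]
    constructor
    · intro h
      exact ⟨fun k hk => h k (by omega), h (m + 1) le_rfl⟩
    · rintro ⟨h1, h2⟩ k hk
      rcases Nat.lt_or_ge k (m + 1) with hk' | hk'
      · exact h1 k (by omega)
      · have : k = m + 1 := by omega
        rw [this]; exact h2
  simp only [mem_inter_iff, mem_union, mem_sdiff]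
  have e1 : ({ω | (fun i => ω (n + i)) ∈ {ω : ℕ → E | occ [x, y, x] ω 3}} : Set (ℕ → E)) =
      {ω | ω n = x ∧ ω (n + 1) = y ∧ ω (n + 2) = x} := by
    ext ω'
    have := occ3 x y x (fun i => ω' (n + i)) 0
    simpa using this
  rw [e1]
  simp only [mem_ofPred_eq, Nat.add_zero]
  have e3 : n + 1 + 1 = n + 2 := rfl
  rw [e3, hA (n + 2), hA (n + 1), hA n, occ3]
  constructor
  · rintro ⟨h1, h2, h3, h4⟩
    have hno : ¬ occ [x, y, x] ω (n + 1 + 1) := by
      intro h
      rcases n with _ | n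
      · exact occ3_lt x y x ω 2 (by norm_num) h
      · rw [occ3] at h
        exact hxy (h.2.2.symm.trans h3).symm.symm
    by_cases h5 : occ [x, y, x] ω (n + 1)
    · right
      exact ⟨⟨h1, fun h => h.2 h5⟩, h3, h4⟩
    · left
      exact ⟨⟨⟨h1, h5⟩, hno⟩, fun h => h.2 ⟨h2, h3, h4⟩⟩
  · rintro (⟨⟨⟨h1, h5⟩, hno⟩, h⟩ | ⟨⟨h1, h5⟩, h3, h4⟩)
    · refine ⟨h1, ?_⟩
      by_contra hcon
      exact h ⟨⟨⟨h1, h5⟩, hno⟩, hcon⟩
    · refine ⟨h1, ?_, h3, h4⟩
      have h6 : occ [x, y, x] ω (n + 1) := by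
        by_contra hcon
        exact h5 ⟨h1, hcon⟩
      rcases n with _ | n
      · exact absurd h6 (occ3_lt x y x ω 1 (by norm_num))
      · rcases n with _ | n
        · exact absurd h6 (occ3_lt x y x ω 2 (by norm_num))
        · rw [occ3] at h6
          exact h6.2.2

variable (ν : Measure E) [IsProbabilityMeasure ν]

lemma measure_cyl3 (x y z : E) :
    Q296.Seq.iid ν {ω : ℕ → E | occ [x, y, z] ω 3} = ν {x} * ν {y} * ν {z} := by
  have h1 : {ω : ℕ → E | occ [x, y, z] ω 3} =
      Set.pi (Finset.range 3 : Set ℕ) (fun i => if i = 0 then {x} else if i = 1 then {y} else {z}) := by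
    ext ω
    have := occ3 x y z ω 0
    simp only [Nat.zero_add] at this
    rw [mem_ofPred_eq, this, Set.mem_pi]
    constructor
    · rintro ⟨h1, h2, h3⟩ i hi
      have hi' : i < 3 := by simpa using hi
      interval_cases i
      · simpa using h1
      · simpa using h2
      · simpa using h3
    · intro h
      refine ⟨?_, ?_, ?_⟩
      · simpa using h 0 (by simp)
      · simpa using h 1 (by simp)
      · simpa using h 2 (by simp)
  rw [h1]
  unfold Q296.Seq.iid
  rw [Measure.infinitePi_pi]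
  · rw [Finset.prod_range_succ, Finset.prod_range_succ, Finset.prod_range_succ,
      Finset.prod_range_zero, one_mul]
    simp
  · intro i _
    split_ifs <;> exact measurableSet_singleton _

lemma measure_cyl2 (x y : E) :
    Q296.Seq.iid ν {ω : ℕ → E | ω 0 = x ∧ ω 1 = y} = ν {x} * ν {y} := by
  have h1 : {ω : ℕ → E | ω 0 = x ∧ ω 1 = y} =
      Set.pi (Finset.range 2 : Set ℕ) (fun i => if i = 0 then {x} else {y}) := by
    ext ω
    rw [mem_ofPred_eq, Set.mem_pi]
    constructor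
    · rintro ⟨h1, h2⟩ i hi
      have hi' : i < 2 := by simpa using hi
      interval_cases i
      · simpa using h1
      · simpa using h2
    · intro h
      refine ⟨?_, ?_⟩
      · simpa using h 0 (by simp)
      · simpa using h 1 (by simp)
  rw [h1]
  unfold Q296.Seq.iid
  rw [Measure.infinitePi_pi]
  · rw [Finset.prod_range_succ, Finset.prod_range_succ, Finset.prod_range_zero, one_mul]
    simp
  · intro i _
    split_ifs <;> exact measurableSet_singleton _

/-- The recurrence for the tails of the waiting time of `xyx`. -/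
lemma u_rec3 (x y : E) (hxy : x ≠ y) (n : ℕ) :
    u ν [x, y, x] (n + 3) = u ν [x, y, x] (n + 2)
      - (ν {x}).toReal * (ν {y}).toReal * u ν [x, y, x] (n + 1)
      - ((ν {x}).toReal ^ 2 * (ν {y}).toReal - (ν {x}).toReal * (ν {y}).toReal) *
        u ν [x, y, x] n := by
  have hm1 := measurableSet_occ [x, y, x] 3
  have hm2 : MeasurableSet {ω : ℕ → E | ω 0 = y ∧ ω 1 = x} := by
    have h1 : MeasurableSet ((fun ω : ℕ → E => ω 0) ⁻¹' {y}) :=
      (measurable_pi_apply 0) (measurableSet_singleton y)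
    have h2 : MeasurableSet ((fun ω : ℕ → E => ω 1) ⁻¹' {x}) :=
      (measurable_pi_apply 1) (measurableSet_singleton x)
    exact h1.inter h2
  have hA := fun n => measurableSet_A [x, y, x] n
  have h1 := Q296.Race.indep_shift ν _ hm1 n (A [x, y, x] n) (hA n) (fun ω ω' h => A_congr _ h)
  have h2 := Q296.Race.indep_shift ν _ hm2 (n + 1) (A [x, y, x] n \ A [x, y, x] (n + 1))
    ((hA n).diff (hA (n + 1))) (fun ω ω' h => by
      rw [mem_sdiff, mem_sdiff, A_congr _ h, A_congr _ (fun i hi => h i (by omega))])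
  rw [key3 x y hxy n] at h1
  have hdisj : Disjoint (A [x, y, x] (n + 2) \ A [x, y, x] (n + 3))
      ((A [x, y, x] n \ A [x, y, x] (n + 1)) ∩
          {ω | (fun i => ω (n + 1 + i)) ∈ {ω : ℕ → E | ω 0 = y ∧ ω 1 = x}}) := by
    rw [Set.disjoint_left]
    rintro ω ⟨h1, _⟩ ⟨⟨_, h2⟩, _⟩
    exact h2 (A_antitone _ (by omega) h1)
  rw [measure_union' hdisj ((hA _).diff (hA _)), h2, measure_cyl3, measure_cyl2] at h1
  have h3 := congrArg ENNReal.toReal h1
  rw [ENNReal.toReal_add (measure_ne_top _ _)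
    (ENNReal.mul_ne_top (measure_ne_top _ _) (ENNReal.mul_ne_top (measure_ne_top _ _)
      (measure_ne_top _ _))), ENNReal.toReal_mul, ENNReal.toReal_mul, ENNReal.toReal_mul,
    ENNReal.toReal_mul, ENNReal.toReal_mul, diff_eq ν _ (by omega), diff_eq ν _ (by omega)] at h3
  have h4 : (Q296.Seq.iid ν (A [x, y, x] n)).toReal = u ν [x, y, x] n := rfl
  rw [h4] at h3
  linear_combination -h3

end Pool.Agent.Q296.Race3
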